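import Pool.Agent.helper960_sd.Red

/-!
# Recognising strongly 2-divisible graphs is coNP-hard

The input is a finite simple graph, given by its adjacency matrix `A : List (List Bool)`; the
question is whether every induced subgraph has a 2-clique-colouring.

Reduction from the complement of 3SAT.  A formula with `m` clauses gives positions `0, ..., M` and
links `0, ..., M - 1`, where `M = 5 m + 2`; the link `t` joins the positions `t` and `t + 1` and has
a list `C t` of pairs (position, bit).  The graph has two vertices `(s, false)`, `(s, true)` for
every position `s`, adjacent if and only if the positions differ; for every link `t` a vertex
`y t` adjacent to the `(s, b)` which are not in `C t`; and for every link `t`, each of its two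
positions `s` and each bit `b` a path with two inner vertices from `(s, b)` to `y t`.  The positions
from `2 m + 2` to `M - 1` stand for the variables, the link `2 j + 1` for the clause `j`, the last
link is satisfied by the position `0` only, and all the others are satisfied by the position `M`
only.

If an assignment satisfies the formula, then the subgraph induced on the corresponding pairs, the
`y t` and the paths between them has no 2-clique-colouring: the paths force all the pairs to get
the same colour, and they form a maximal clique.  If the formula is not satisfiable, then every
induced subgraph has a 2-clique-colouring.
-/

set_option autoImplicit false

open Pool.Agent.NPC Pool.Agent.helper960_sd

/-- The recognition problem for strongly `2`-divisible graphs is `coNP`-hard under polynomial-time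
many-one reductions. -/
theorem Pool.Agent.Results.MP_65ccf5_lc.CoNPHard.result : CoNPHardP Strong2Div :=
  coNPHard_strong2Div
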